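import Pool.Agent.MP_1037db_co.Q.S4
import Pool.Agent.MP_1037db_co.Q.B.S1C0
import Pool.Agent.MP_1037db_co.Q.B.S2C0
import Pool.Agent.MP_1037db_co.Q.B.S2C1
import Pool.Agent.MP_1037db_co.Q.B.S13P1
import Pool.Agent.MP_1037db_co.Q.B.S13C0
import Pool.Agent.MP_1037db_co.Q.B.S13C1
import Pool.Agent.MP_1037db_co.Q.B.S13C2
import Pool.Agent.MP_1037db_co.Q.B.S13C3
import Pool.Agent.MP_1037db_co.Q.B.S13C4
import Pool.Agent.MP_1037db_co.Q.B.S13C5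
import Pool.Agent.MP_1037db_co.Q.B.S13C6
import Pool.Agent.MP_1037db_co.Q.B.S13C7
import Pool.Agent.MP_1037db_co.Q.B.S13C8
import Pool.Agent.MP_1037db_co.Q.B.S13C9
import Pool.Agent.MP_1037db_co.Q.B.S13C10
import Pool.Agent.MP_1037db_co.Q.B.S13C11
import Pool.Agent.MP_1037db_co.Q.B.S13C12
import Pool.Agent.MP_1037db_co.Q.B.S13C13
import Pool.Agent.MP_1037db_co.Q.B.S13C14
import Pool.Agent.MP_1037db_co.Q.B.S13C15
import Pool.Agent.MP_1037db_co.Q.B.S13C16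
import Pool.Agent.MP_1037db_co.Q.B.S13C17
import Pool.Agent.MP_1037db_co.Q.B.S13C18
import Pool.Agent.MP_1037db_co.Q.B.S13C19
import Pool.Agent.MP_1037db_co.Q.B.S13C20
import Pool.Agent.MP_1037db_co.Q.B.S13C21
import Pool.Agent.MP_1037db_co.Q.B.S13C22
import Pool.Agent.MP_1037db_co.Q.B.S13C23
import Pool.Agent.MP_1037db_co.Q.B.S13C24
import Pool.Agent.MP_1037db_co.Q.B.S13C25

namespace Pool.Agent.MP_1037db_co.Q.B

open LP PT.Kb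

set_option linter.defProp false
set_option maxRecDepth 100000

noncomputable section

theorem tab1 : tab FA FB D1 R1 5 = true := by decide +kernel

theorem seg1 : Seg ⟨FA, FB, FT, 61890, 10035, 38461, geo_ok⟩ 10035 9861 0 2200 := fun _ E β ht h hb h' => by
  letI : Geo := ⟨FA, FB, FT, 61890, 10035, 38461, geo_ok⟩
  have c : rd R1 35 = 9861 := by decide +kernel
  have g := tc_re (E := E) tab1 (ro := 10035) (C0 := 9861) (by decide +kernel) ht hb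
  have s : St (E.re tab1) β 9861 H1_0 (0 * 32) _ X1_0 _ _ _ _ _ _ :=
    g.start H1_0 9861 0 (by decide +kernel) h h'
  have s : St _ β _ _ (128 * 32) _ _ _ _ _ _ _ _ := s.ru g okX1_0 p1_0_0
  have s : St _ β _ _ (183 * 32) _ _ _ _ _ _ _ _ := s.ru g okX1_0 p1_1_0
  have s : St _ β _ _ (183 * 32) _ _ _ _ _ _ _ _ := s.rnz (i := 5856) g r1_1_12 ⟨by norm_num, c⟩
  have s : St _ β _ _ (183 * 32) _ _ _ _ _ _ _ _ := s.rnz (i := 5856) g r1_1_13 ⟨by norm_num, c⟩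
  have s : St _ β _ _ (183 * 32) _ _ _ _ _ _ _ _ := s.rnz (i := 5856) g r1_2_0 ⟨by norm_num, c⟩
  have s : St _ β _ _ (183 * 32) _ _ _ _ _ _ _ _ := s.rnz (i := 5856) g r1_2_1 ⟨by norm_num, c⟩
  have s : St _ β _ _ (183 * 32) _ _ _ _ _ _ _ _ := s.rnz (i := 5856) g r1_2_2 ⟨by norm_num, c⟩
  have s : St _ β _ _ (183 * 32) _ _ _ _ _ _ _ _ := s.rnz (i := 5856) g r1_2_3 ⟨by norm_num, c⟩
  have s : St _ β _ _ (183 * 32) _ _ _ _ _ _ _ _ := s.rnz (i := 5856) g r1_2_4 ⟨by norm_num, c⟩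
  have s : St _ β _ _ (183 * 32) _ _ _ _ _ _ _ _ := s.rnz (i := 5856) g r1_2_5 ⟨by norm_num, c⟩
  have s : St _ β _ _ (183 * 32) _ _ _ _ _ _ _ _ := s.rnz (i := 5856) g r1_2_6 ⟨by norm_num, c⟩
  have s : St _ β _ _ (183 * 32) _ _ _ _ _ _ _ _ := s.rnz (i := 5856) g r1_3_0 ⟨by norm_num, c⟩
  have s : St _ β _ _ (183 * 32) _ _ _ _ _ _ _ _ := s.rnz (i := 5856) g r1_3_1 ⟨by norm_num, c⟩
  have s : St _ β _ _ (183 * 32) _ _ _ _ _ _ _ _ := s.rnz (i := 5856) g r1_3_2 ⟨by norm_num, c⟩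
  have s : St _ β _ _ (183 * 32) _ _ _ _ _ _ _ _ := s.rnz (i := 5856) g r1_3_3 ⟨by norm_num, c⟩
  have s : St _ β _ _ (183 * 32) _ _ _ _ _ _ _ _ := s.rnz (i := 5856) g r1_3_4 ⟨by norm_num, c⟩
  have s : St _ β _ _ (183 * 32) _ _ _ _ _ _ _ _ := s.rnz (i := 5856) g r1_3_5 ⟨by norm_num, c⟩
  have s : St _ β _ _ (183 * 32) _ _ _ _ _ _ _ _ := s.rnz (i := 5856) g r1_3_6 ⟨by norm_num, c⟩
  have s : St _ β _ _ (183 * 32) _ _ _ _ _ _ _ _ := s.rnz (i := 5856) g r1_4_0 ⟨by norm_num, c⟩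
  exact s.out g (by decide +kernel)

theorem tab2 : tab FA FB D2 R2 8 = true := by decide +kernel

theorem seg2 : Seg ⟨FA, FB, FT, 61890, 10035, 38461, geo_ok⟩ 10035 9861 2200 3000 := fun _ E β ht h hb h' => by
  letI : Geo := ⟨FA, FB, FT, 61890, 10035, 38461, geo_ok⟩
  have c : rd R2 35 = 9861 := by decide +kernel
  have g := tc_re (E := E) tab2 (ro := 10035) (C0 := 9861) (by decide +kernel) ht hb
  have s : St (E.re tab2) β 9861 H2_0 (0 * 32) _ X2_0 _ _ _ _ _ _ :=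
    g.start H2_0 9861 1 (by decide +kernel) h h'
  have s : St _ β _ _ (132 * 32) _ _ _ _ _ _ _ _ := s.ru g okX2_0 p2_0_0
  have s : St _ β _ _ (230 * 32) _ _ _ _ _ _ _ _ := s.ru g okX2_0 p2_1_0
  have s : St _ β _ _ (312 * 32) _ _ _ _ _ _ _ _ := s.ru g okX2_0 p2_2_0
  have s : St _ β _ _ (367 * 32) _ _ _ _ _ _ _ _ := s.ru g okX2_0 p2_3_0
  have s : St _ β _ _ (392 * 32) _ _ _ _ _ _ _ _ := s.ru g okX2_0 p2_4_0
  have s : St _ β _ _ (398 * 32) _ _ _ _ _ _ _ _ := s.ru g okX2_0 p2_5_0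
  have s : St _ β _ _ (398 * 32) _ _ _ _ _ _ _ _ := s.rnz (i := 12736) g r2_5_3 ⟨by norm_num, c⟩
  have s : St _ β _ _ (398 * 32) _ _ _ _ _ _ _ _ := s.rnz (i := 12736) g r2_5_4 ⟨by norm_num, c⟩
  have s : St _ β _ _ (398 * 32) _ _ _ _ _ _ _ _ := s.rnz (i := 12736) g r2_5_5 ⟨by norm_num, c⟩
  have s : St _ β _ _ (398 * 32) _ _ _ _ _ _ _ _ := s.rnz (i := 12736) g r2_5_6 ⟨by norm_num, c⟩
  have s : St _ β _ _ (398 * 32) _ _ _ _ _ _ _ _ := s.rnz (i := 12736) g r2_5_7 ⟨by norm_num, c⟩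
  have s : St _ β _ _ (398 * 32) _ _ _ _ _ _ _ _ := s.rnz (i := 12736) g r2_5_8 ⟨by norm_num, c⟩
  have s : St _ β _ _ (398 * 32) _ _ _ _ _ _ _ _ := s.rnz (i := 12736) g r2_6_0 ⟨by norm_num, c⟩
  have s : St _ β _ _ (398 * 32) _ _ _ _ _ _ _ _ := s.rnz (i := 12736) g r2_6_1 ⟨by norm_num, c⟩
  have s : St _ β _ _ (398 * 32) _ _ _ _ _ _ _ _ := s.rnz (i := 12736) g r2_6_2 ⟨by norm_num, c⟩
  have s : St _ β _ _ (398 * 32) _ _ _ _ _ _ _ _ := s.rnz (i := 12736) g r2_6_3 ⟨by norm_num, c⟩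
  have s : St _ β _ _ (398 * 32) _ _ _ _ _ _ _ _ := s.rnz (i := 12736) g r2_6_4 ⟨by norm_num, c⟩
  have s : St _ β _ _ (398 * 32) _ _ _ _ _ _ _ _ := s.rnz (i := 12736) g r2_6_5 ⟨by norm_num, c⟩
  have s : St _ β _ _ (398 * 32) _ _ _ _ _ _ _ _ := s.rnz (i := 12736) g r2_6_6 ⟨by norm_num, c⟩
  have s : St _ β _ _ (398 * 32) _ _ _ _ _ _ _ _ := s.rnz (i := 12736) g r2_7_0 ⟨by norm_num, c⟩
  have s : St _ β _ _ (398 * 32) _ _ _ _ _ _ _ _ := s.rnz (i := 12736) g r2_7_1 ⟨by norm_num, c⟩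
  have s : St _ β _ _ (398 * 32) _ _ _ _ _ _ _ _ := s.rnz (i := 12736) g r2_7_2 ⟨by norm_num, c⟩
  have s : St _ β _ _ (398 * 32) _ _ _ _ _ _ _ _ := s.rnz (i := 12736) g r2_7_3 ⟨by norm_num, c⟩
  have s : St _ β _ _ (398 * 32) _ _ _ _ _ _ _ _ := s.rnz (i := 12736) g r2_7_4 ⟨by norm_num, c⟩
  have s : St _ β _ _ (398 * 32) _ _ _ _ _ _ _ _ := s.rnz (i := 12736) g r2_7_5 ⟨by norm_num, c⟩
  have s : St _ β _ _ (398 * 32) _ _ _ _ _ _ _ _ := s.rnz (i := 12736) g r2_7_6 ⟨by norm_num, c⟩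
  have s : St _ β _ _ (398 * 32) _ _ _ _ _ _ _ _ := s.rnz (i := 12736) g r2_8_0 ⟨by norm_num, c⟩
  have s : St _ β _ _ (398 * 32) _ _ _ _ _ _ _ _ := s.rnz (i := 12736) g r2_8_1 ⟨by norm_num, c⟩
  have s : St _ β _ _ (398 * 32) _ _ _ _ _ _ _ _ := s.rnz (i := 12736) g r2_8_2 ⟨by norm_num, c⟩
  have s : St _ β _ _ (398 * 32) _ _ _ _ _ _ _ _ := s.rnz (i := 12736) g r2_8_3 ⟨by norm_num, c⟩
  exact s.out g (by decide +kernel)

theorem tab13 : tab FA FB D13 R13 10 = true := by decide +kernel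

theorem seg13 : Seg ⟨FA, FB, FT, 61890, 10035, 38461, geo_ok⟩ 10035 9861 3000 10036 := fun _ E β ht h hb h' => by
  letI : Geo := ⟨FA, FB, FT, 61890, 10035, 38461, geo_ok⟩
  have c : rd R13 35 = 9861 := by decide +kernel
  have g := tc_re (E := E) tab13 (ro := 10035) (C0 := 9861) (by decide +kernel) ht hb
  have s : St (E.re tab13) β 9861 H13_0 (0 * 32) _ X13_0 _ _ _ _ _ _ :=
    g.start H13_0 9861 1 (by decide +kernel) h h'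
  have s : St _ β _ _ (159 * 32) _ _ _ _ _ _ _ _ := s.ru g okX13_0 p13_0_0
  have s : St _ β _ _ (249 * 32) _ _ _ _ _ _ _ _ := s.ru g okX13_0 p13_1_0
  have s : St _ β _ _ (328 * 32) _ _ _ _ _ _ _ _ := s.ru g okX13_0 p13_2_0
  have s : St _ β _ _ (400 * 32) _ _ _ _ _ _ _ _ := s.ru g okX13_0 p13_3_0
  have s : St _ β _ _ (456 * 32) _ _ _ _ _ _ _ _ := s.ru g okX13_0 p13_4_0
  have s : St _ β _ _ (524 * 32) _ _ _ _ _ _ _ _ := s.ru g okX13_0 p13_5_0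
  have s : St _ β _ _ (579 * 32) _ _ _ _ _ _ _ _ := s.ru g okX13_0 p13_6_0
  have s : St _ β _ _ (640 * 32) _ _ _ _ _ _ _ _ := s.ru g okX13_0 p13_7_0
  have s : St _ β _ _ (688 * 32) _ _ _ _ _ _ _ _ := s.ru g okX13_0 p13_8_0
  have s : St _ β _ _ (734 * 32) _ _ _ _ _ _ _ _ := s.ru g okX13_0 p13_9_0
  have s : St _ β _ _ (791 * 32) _ _ _ _ _ _ _ _ := s.ru g okX13_0 p13_10_0
  have s : St _ β _ _ (837 * 32) _ _ _ _ _ _ _ _ := s.ru g okX13_0 p13_11_0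
  have s : St _ β _ _ (890 * 32) _ _ _ _ _ _ _ _ := s.ru g okX13_0 p13_12_0
  have s : St _ β _ _ (934 * 32) _ _ _ _ _ _ _ _ := s.ru g okX13_0 p13_13_0
  have s : St _ β _ _ (977 * 32) _ _ _ _ _ _ _ _ := s.ru g okX13_0 p13_14_0
  have s : St _ β _ _ (1024 * 32) _ _ _ _ _ _ _ _ := s.ru g okX13_0 p13_15_0
  have s : St _ β _ _ (1061 * 32) _ _ _ _ _ _ _ _ := s.ru g okX13_0 p13_16_0
  have s : St _ β _ _ (1100 * 32) _ _ _ _ _ _ _ _ := s.ru g okX13_0 p13_17_0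
  have s : St _ β _ _ (1138 * 32) _ _ _ _ _ _ _ _ := s.ru g okX13_0 p13_18_0
  have s : St _ β _ _ (1177 * 32) _ _ _ _ _ _ _ _ := s.ru g okX13_0 p13_19_0
  have s : St _ β _ _ (1206 * 32) _ _ _ _ _ _ _ _ := s.ru g okX13_0 p13_20_0
  have s : St _ β _ _ (1233 * 32) _ _ _ _ _ _ _ _ := s.ru g okX13_0 p13_21_0
  have s : St _ β _ _ (1261 * 32) _ _ _ _ _ _ _ _ := s.ru g okX13_0 p13_22_0
  have s : St _ β _ _ (1287 * 32) _ _ _ _ _ _ _ _ := s.ru g okX13_0 p13_23_0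
  have s : St _ β _ _ (1305 * 32) _ _ _ _ _ _ _ _ := s.ru g okX13_0 p13_24_0
  have s : St _ β _ _ (1331 * 32) _ _ _ _ _ _ _ _ := s.ru g okX13_0 p13_25_0
  have s : St _ β _ _ (1353 * 32) _ _ _ _ _ _ _ _ := s.ru g okX13_0 p13_26_0
  have s : St _ β _ _ (1371 * 32) _ _ _ _ _ _ _ _ := s.ru g okX13_0 p13_27_0
  have s : St _ β _ _ (1392 * 32) _ _ _ _ _ _ _ _ := s.ru g okX13_0 p13_28_0
  have s : St _ β _ _ (1416 * 32) _ _ _ _ _ _ _ _ := s.ru g okX13_0 p13_29_0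
  have s : St _ β _ _ (1432 * 32) _ _ _ _ _ _ _ _ := s.ru g okX13_0 p13_30_0
  have s : St _ β _ _ (1440 * 32) _ _ _ _ _ _ _ _ := s.ru g okX13_0 p13_31_0
  have s : St _ β _ _ (1440 * 32) _ _ _ _ _ _ _ _ := s.rnz (i := 46080) g r13_31_7 ⟨by norm_num, c⟩
  have s : St _ β _ _ (1440 * 32) _ _ _ _ _ _ _ _ := s.rnz (i := 46080) g r13_31_8 ⟨by norm_num, c⟩
  have s : St _ β _ _ (1440 * 32) _ _ _ _ _ _ _ _ := s.rnz (i := 46080) g r13_32_0 ⟨by norm_num, c⟩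
  have s : St _ β _ _ (1440 * 32) _ _ _ _ _ _ _ _ := s.rnz (i := 46080) g r13_32_1 ⟨by norm_num, c⟩
  have s : St _ β _ _ (1440 * 32) _ _ _ _ _ _ _ _ := s.rnz (i := 46080) g r13_32_2 ⟨by norm_num, c⟩
  have s : St _ β _ _ (1440 * 32) _ _ _ _ _ _ _ _ := s.rnz (i := 46080) g r13_32_3 ⟨by norm_num, c⟩
  have s : St _ β _ _ (1440 * 32) _ _ _ _ _ _ _ _ := s.rnz (i := 46080) g r13_32_4 ⟨by norm_num, c⟩
  have s : St _ β _ _ (1440 * 32) _ _ _ _ _ _ _ _ := s.rnz (i := 46080) g r13_32_5 ⟨by norm_num, c⟩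
  have s : St _ β _ _ (1440 * 32) _ _ _ _ _ _ _ _ := s.rnz (i := 46080) g r13_32_6 ⟨by norm_num, c⟩
  have s : St _ β _ _ (1440 * 32) _ _ _ _ _ _ _ _ := s.rnz (i := 46080) g r13_33_0 ⟨by norm_num, c⟩
  have s : St _ β _ _ (1440 * 32) _ _ _ _ _ _ _ _ := s.rnz (i := 46080) g r13_33_1 ⟨by norm_num, c⟩
  have s : St _ β _ _ (1440 * 32) _ _ _ _ _ _ _ _ := s.rnz (i := 46080) g r13_33_2 ⟨by norm_num, c⟩
  have s : St _ β _ _ (1440 * 32) _ _ _ _ _ _ _ _ := s.rnz (i := 46080) g r13_33_3 ⟨by norm_num, c⟩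
  have s : St _ β _ _ (1440 * 32) _ _ _ _ _ _ _ _ := s.rnz (i := 46080) g r13_33_4 ⟨by norm_num, c⟩
  have s : St _ β _ _ (1440 * 32) _ _ _ _ _ _ _ _ := s.rnz (i := 46080) g r13_33_5 ⟨by norm_num, c⟩
  have s : St _ β _ _ (1440 * 32) _ _ _ _ _ _ _ _ := s.rnz (i := 46080) g r13_33_6 ⟨by norm_num, c⟩
  have s : St _ β _ _ (1440 * 32) _ _ _ _ _ _ _ _ := s.rnz (i := 46080) g r13_34_0 ⟨by norm_num, c⟩
  have s : St _ β _ _ (1440 * 32) _ _ _ _ _ _ _ _ := s.rnz (i := 46080) g r13_34_1 ⟨by norm_num, c⟩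
  have s : St _ β _ _ (1440 * 32) _ _ _ _ _ _ _ _ := s.rnz (i := 46080) g r13_34_2 ⟨by norm_num, c⟩
  have s : St _ β _ _ (1440 * 32) _ _ _ _ _ _ _ _ := s.rnz (i := 46080) g r13_34_3 ⟨by norm_num, c⟩
  have s : St _ β _ _ (1440 * 32) _ _ _ _ _ _ _ _ := s.rnz (i := 46080) g r13_34_4 ⟨by norm_num, c⟩
  have s : St _ β _ _ (1440 * 32) _ _ _ _ _ _ _ _ := s.rnz (i := 46080) g r13_34_5 ⟨by norm_num, c⟩
  have s : St _ β _ _ (1440 * 32) _ _ _ _ _ _ _ _ := s.rnz (i := 46080) g r13_34_6 ⟨by norm_num, c⟩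
  have s : St _ β _ _ (1440 * 32) _ _ _ _ _ _ _ _ := s.rnz (i := 46080) g r13_35_0 ⟨by norm_num, c⟩
  have s : St _ β _ _ (1440 * 32) _ _ _ _ _ _ _ _ := s.rnz (i := 46080) g r13_35_1 ⟨by norm_num, c⟩
  have s : St _ β _ _ (1440 * 32) _ _ _ _ _ _ _ _ := s.rnz (i := 46080) g r13_35_2 ⟨by norm_num, c⟩
  have s : St _ β _ _ (1440 * 32) _ _ _ _ _ _ _ _ := s.rnz (i := 46080) g r13_35_3 ⟨by norm_num, c⟩
  have s : St _ β _ _ (1440 * 32) _ _ _ _ _ _ _ _ := s.rnz (i := 46080) g r13_35_4 ⟨by norm_num, c⟩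
  have s : St _ β _ _ (1440 * 32) _ _ _ _ _ _ _ _ := s.rnz (i := 46080) g r13_35_5 ⟨by norm_num, c⟩
  have s : St _ β _ _ (1440 * 32) _ _ _ _ _ _ _ _ := s.rnz (i := 46080) g r13_35_6 ⟨by norm_num, c⟩
  have s : St _ β _ _ (1440 * 32) _ _ _ _ _ _ _ _ := s.rnz (i := 46080) g r13_36_0 ⟨by norm_num, c⟩
  have s : St _ β _ _ (1440 * 32) _ _ _ _ _ _ _ _ := s.rnz (i := 46080) g r13_36_1 ⟨by norm_num, c⟩
  have s : St _ β _ _ (1440 * 32) _ _ _ _ _ _ _ _ := s.rnz (i := 46080) g r13_36_2 ⟨by norm_num, c⟩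
  have s : St _ β _ _ (1440 * 32) _ _ _ _ _ _ _ _ := s.rnz (i := 46080) g r13_36_3 ⟨by norm_num, c⟩
  have s : St _ β _ _ (1440 * 32) _ _ _ _ _ _ _ _ := s.rnz (i := 46080) g r13_36_4 ⟨by norm_num, c⟩
  have s : St _ β _ _ (1440 * 32) _ _ _ _ _ _ _ _ := s.rnz (i := 46080) g r13_36_5 ⟨by norm_num, c⟩
  have s : St _ β _ _ (1440 * 32) _ _ _ _ _ _ _ _ := s.rnz (i := 46080) g r13_36_6 ⟨by norm_num, c⟩
  have s : St _ β _ _ (1440 * 32) _ _ _ _ _ _ _ _ := s.rnz (i := 46080) g r13_37_0 ⟨by norm_num, c⟩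
  have s : St _ β _ _ (1440 * 32) _ _ _ _ _ _ _ _ := s.rnz (i := 46080) g r13_37_1 ⟨by norm_num, c⟩
  have s : St _ β _ _ (1440 * 32) _ _ _ _ _ _ _ _ := s.rnz (i := 46080) g r13_37_2 ⟨by norm_num, c⟩
  have s : St _ β _ _ (1440 * 32) _ _ _ _ _ _ _ _ := s.rnz (i := 46080) g r13_37_3 ⟨by norm_num, c⟩
  have s : St _ β _ _ (1440 * 32) _ _ _ _ _ _ _ _ := s.rnz (i := 46080) g r13_37_4 ⟨by norm_num, c⟩
  have s : St _ β _ _ (1440 * 32) _ _ _ _ _ _ _ _ := s.rnz (i := 46080) g r13_37_5 ⟨by norm_num, c⟩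
  have s : St _ β _ _ (1440 * 32) _ _ _ _ _ _ _ _ := s.rnz (i := 46080) g r13_38_0 ⟨by norm_num, c⟩
  have s : St _ β _ _ (1440 * 32) _ _ _ _ _ _ _ _ := s.rnz (i := 46080) g r13_38_1 ⟨by norm_num, c⟩
  have s : St _ β _ _ (1440 * 32) _ _ _ _ _ _ _ _ := s.rnz (i := 46080) g r13_38_2 ⟨by norm_num, c⟩
  have s : St _ β _ _ (1503 * 32) _ _ _ _ _ _ _ _ := s.ru g okX13_62 p13_38_3
  have s : St _ β _ _ (1577 * 32) _ _ _ _ _ _ _ _ := s.ru g okX13_62 p13_39_0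
  have s : St _ β _ _ (1630 * 32) _ _ _ _ _ _ _ _ := s.ru g okX13_62 p13_40_0
  have s : St _ β _ _ (1676 * 32) _ _ _ _ _ _ _ _ := s.ru g okX13_62 p13_41_0
  have s : St _ β _ _ (1724 * 32) _ _ _ _ _ _ _ _ := s.ru g okX13_62 p13_42_0
  have s : St _ β _ _ (1774 * 32) _ _ _ _ _ _ _ _ := s.ru g okX13_62 p13_43_0
  have s : St _ β _ _ (1814 * 32) _ _ _ _ _ _ _ _ := s.ru g okX13_62 p13_44_0
  have s : St _ β _ _ (1849 * 32) _ _ _ _ _ _ _ _ := s.ru g okX13_62 p13_45_0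
  have s : St _ β _ _ (1882 * 32) _ _ _ _ _ _ _ _ := s.ru g okX13_62 p13_46_0
  have s : St _ β _ _ (1906 * 32) _ _ _ _ _ _ _ _ := s.ru g okX13_62 p13_47_0
  have s : St _ β _ _ (1931 * 32) _ _ _ _ _ _ _ _ := s.ru g okX13_62 p13_48_0
  have s : St _ β _ _ (1953 * 32) _ _ _ _ _ _ _ _ := s.ru g okX13_62 p13_49_0
  have s : St _ β _ _ (1953 * 32) _ _ _ _ _ _ _ _ := s.rnz (i := 62496) g r13_49_10 ⟨by norm_num, c⟩
  have s : St _ β _ _ (1953 * 32) _ _ _ _ _ _ _ _ := s.rnz (i := 62496) g r13_49_11 ⟨by norm_num, c⟩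
  have s : St _ β _ _ (1953 * 32) _ _ _ _ _ _ _ _ := s.rnz (i := 62496) g r13_50_0 ⟨by norm_num, c⟩
  have s : St _ β _ _ (1953 * 32) _ _ _ _ _ _ _ _ := s.rnz (i := 62496) g r13_50_1 ⟨by norm_num, c⟩
  have s : St _ β _ _ (1953 * 32) _ _ _ _ _ _ _ _ := s.rnz (i := 62496) g r13_50_2 ⟨by norm_num, c⟩
  have s : St _ β _ _ (1953 * 32) _ _ _ _ _ _ _ _ := s.rnz (i := 62496) g r13_50_3 ⟨by norm_num, c⟩
  have s : St _ β _ _ (1953 * 32) _ _ _ _ _ _ _ _ := s.rnz (i := 62496) g r13_50_4 ⟨by norm_num, c⟩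
  have s : St _ β _ _ (1953 * 32) _ _ _ _ _ _ _ _ := s.rnz (i := 62496) g r13_50_5 ⟨by norm_num, c⟩
  have s : St _ β _ _ (1953 * 32) _ _ _ _ _ _ _ _ := s.rnz (i := 62496) g r13_51_0 ⟨by norm_num, c⟩
  have s : St _ β _ _ (1953 * 32) _ _ _ _ _ _ _ _ := s.rnz (i := 62496) g r13_51_1 ⟨by norm_num, c⟩
  have s : St _ β _ _ (1953 * 32) _ _ _ _ _ _ _ _ := s.rnz (i := 62496) g r13_51_2 ⟨by norm_num, c⟩
  have s : St _ β _ _ (2006 * 32) _ _ _ _ _ _ _ _ := s.ru g okX13_81 p13_51_3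
  have s : St _ β _ _ (2083 * 32) _ _ _ _ _ _ _ _ := s.ru g okX13_81 p13_52_0
  have s : St _ β _ _ (2131 * 32) _ _ _ _ _ _ _ _ := s.ru g okX13_81 p13_53_0
  have s : St _ β _ _ (2165 * 32) _ _ _ _ _ _ _ _ := s.ru g okX13_81 p13_54_0
  have s : St _ β _ _ (2202 * 32) _ _ _ _ _ _ _ _ := s.ru g okX13_81 p13_55_0
  have s : St _ β _ _ (2230 * 32) _ _ _ _ _ _ _ _ := s.ru g okX13_81 p13_56_0
  have s : St _ β _ _ (2268 * 32) _ _ _ _ _ _ _ _ := s.ru g okX13_81 p13_57_0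
  have s : St _ β _ _ (2305 * 32) _ _ _ _ _ _ _ _ := s.ru g okX13_81 p13_58_0
  have s : St _ β _ _ (2344 * 32) _ _ _ _ _ _ _ _ := s.ru g okX13_81 p13_59_0
  have s : St _ β _ _ (2381 * 32) _ _ _ _ _ _ _ _ := s.ru g okX13_81 p13_60_0
  have s : St _ β _ _ (2416 * 32) _ _ _ _ _ _ _ _ := s.ru g okX13_81 p13_61_0
  have s : St _ β _ _ (2444 * 32) _ _ _ _ _ _ _ _ := s.ru g okX13_81 p13_62_0
  have s : St _ β _ _ (2470 * 32) _ _ _ _ _ _ _ _ := s.ru g okX13_81 p13_63_0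
  have s : St _ β _ _ (2497 * 32) _ _ _ _ _ _ _ _ := s.ru g okX13_81 p13_64_0
  have s : St _ β _ _ (2527 * 32) _ _ _ _ _ _ _ _ := s.ru g okX13_81 p13_65_0
  have s : St _ β _ _ (2548 * 32) _ _ _ _ _ _ _ _ := s.ru g okX13_81 p13_66_0
  have s : St _ β _ _ (2578 * 32) _ _ _ _ _ _ _ _ := s.ru g okX13_81 p13_67_0
  have s : St _ β _ _ (2596 * 32) _ _ _ _ _ _ _ _ := s.ru g okX13_81 p13_68_0
  have s : St _ β _ _ (2596 * 32) _ _ _ _ _ _ _ _ := s.rnz (i := 83072) g r13_68_11 ⟨by norm_num, c⟩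
  have s : St _ β _ _ (2596 * 32) _ _ _ _ _ _ _ _ := s.rnz (i := 83072) g r13_68_12 ⟨by norm_num, c⟩
  have s : St _ β _ _ (2596 * 32) _ _ _ _ _ _ _ _ := s.rnz (i := 83072) g r13_69_0 ⟨by norm_num, c⟩
  have s : St _ β _ _ (2596 * 32) _ _ _ _ _ _ _ _ := s.rnz (i := 83072) g r13_69_1 ⟨by norm_num, c⟩
  have s : St _ β _ _ (2596 * 32) _ _ _ _ _ _ _ _ := s.rnz (i := 83072) g r13_69_2 ⟨by norm_num, c⟩
  have s : St _ β _ _ (2596 * 32) _ _ _ _ _ _ _ _ := s.rnz (i := 83072) g r13_69_3 ⟨by norm_num, c⟩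
  have s : St _ β _ _ (2596 * 32) _ _ _ _ _ _ _ _ := s.rnz (i := 83072) g r13_69_4 ⟨by norm_num, c⟩
  have s : St _ β _ _ (2596 * 32) _ _ _ _ _ _ _ _ := s.rnz (i := 83072) g r13_69_5 ⟨by norm_num, c⟩
  have s : St _ β _ _ (2596 * 32) _ _ _ _ _ _ _ _ := s.rnz (i := 83072) g r13_70_0 ⟨by norm_num, c⟩
  have s : St _ β _ _ (2596 * 32) _ _ _ _ _ _ _ _ := s.rnz (i := 83072) g r13_70_1 ⟨by norm_num, c⟩
  have s : St _ β _ _ (2596 * 32) _ _ _ _ _ _ _ _ := s.rnz (i := 83072) g r13_70_2 ⟨by norm_num, c⟩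
  have s : St _ β _ _ (2596 * 32) _ _ _ _ _ _ _ _ := s.rnz (i := 83072) g r13_70_3 ⟨by norm_num, c⟩
  have s : St _ β _ _ (2596 * 32) _ _ _ _ _ _ _ _ := s.rnz (i := 83072) g r13_70_4 ⟨by norm_num, c⟩
  have s : St _ β _ _ (2596 * 32) _ _ _ _ _ _ _ _ := s.rnz (i := 83072) g r13_70_5 ⟨by norm_num, c⟩
  have s : St _ β _ _ (2596 * 32) _ _ _ _ _ _ _ _ := s.rnz (i := 83072) g r13_70_6 ⟨by norm_num, c⟩
  have s : St _ β _ _ (2596 * 32) _ _ _ _ _ _ _ _ := s.rnz (i := 83072) g r13_71_0 ⟨by norm_num, c⟩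
  have s : St _ β _ _ (2596 * 32) _ _ _ _ _ _ _ _ := s.rnz (i := 83072) g r13_71_1 ⟨by norm_num, c⟩
  have s : St _ β _ _ (2596 * 32) _ _ _ _ _ _ _ _ := s.rnz (i := 83072) g r13_71_2 ⟨by norm_num, c⟩
  have s : St _ β _ _ (2596 * 32) _ _ _ _ _ _ _ _ := s.rnz (i := 83072) g r13_71_3 ⟨by norm_num, c⟩
  have s : St _ β _ _ (2596 * 32) _ _ _ _ _ _ _ _ := s.rnz (i := 83072) g r13_71_4 ⟨by norm_num, c⟩
  have s : St _ β _ _ (2596 * 32) _ _ _ _ _ _ _ _ := s.rnz (i := 83072) g r13_71_5 ⟨by norm_num, c⟩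
  have s : St _ β _ _ (2596 * 32) _ _ _ _ _ _ _ _ := s.rnz (i := 83072) g r13_71_6 ⟨by norm_num, c⟩
  have s : St _ β _ _ (2596 * 32) _ _ _ _ _ _ _ _ := s.rnz (i := 83072) g r13_72_0 ⟨by norm_num, c⟩
  have s : St _ β _ _ (2663 * 32) _ _ _ _ _ _ _ _ := s.ru g okX13_112 p13_72_1
  have s : St _ β _ _ (2716 * 32) _ _ _ _ _ _ _ _ := s.ru g okX13_112 p13_73_0
  have s : St _ β _ _ (2765 * 32) _ _ _ _ _ _ _ _ := s.ru g okX13_112 p13_74_0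
  have s : St _ β _ _ (2808 * 32) _ _ _ _ _ _ _ _ := s.ru g okX13_112 p13_75_0
  have s : St _ β _ _ (2842 * 32) _ _ _ _ _ _ _ _ := s.ru g okX13_112 p13_76_0
  have s : St _ β _ _ (2878 * 32) _ _ _ _ _ _ _ _ := s.ru g okX13_112 p13_77_0
  have s : St _ β _ _ (2909 * 32) _ _ _ _ _ _ _ _ := s.ru g okX13_112 p13_78_0
  have s : St _ β _ _ (2941 * 32) _ _ _ _ _ _ _ _ := s.ru g okX13_112 p13_79_0
  have s : St _ β _ _ (2961 * 32) _ _ _ _ _ _ _ _ := s.ru g okX13_112 p13_80_0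
  have s : St _ β _ _ (2961 * 32) _ _ _ _ _ _ _ _ := s.rnz (i := 94752) g r13_80_12 ⟨by norm_num, c⟩
  have s : St _ β _ _ (2961 * 32) _ _ _ _ _ _ _ _ := s.rnz (i := 94752) g r13_80_13 ⟨by norm_num, c⟩
  have s : St _ β _ _ (2961 * 32) _ _ _ _ _ _ _ _ := s.rnz (i := 94752) g r13_81_0 ⟨by norm_num, c⟩
  have s : St _ β _ _ (2961 * 32) _ _ _ _ _ _ _ _ := s.rnz (i := 94752) g r13_81_1 ⟨by norm_num, c⟩
  have s : St _ β _ _ (2961 * 32) _ _ _ _ _ _ _ _ := s.rnz (i := 94752) g r13_81_2 ⟨by norm_num, c⟩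
  have s : St _ β _ _ (2961 * 32) _ _ _ _ _ _ _ _ := s.rnz (i := 94752) g r13_81_3 ⟨by norm_num, c⟩
  have s : St _ β _ _ (2961 * 32) _ _ _ _ _ _ _ _ := s.rnz (i := 94752) g r13_81_4 ⟨by norm_num, c⟩
  have s : St _ β _ _ (2961 * 32) _ _ _ _ _ _ _ _ := s.rnz (i := 94752) g r13_81_5 ⟨by norm_num, c⟩
  have s : St _ β _ _ (2961 * 32) _ _ _ _ _ _ _ _ := s.rnz (i := 94752) g r13_82_0 ⟨by norm_num, c⟩
  have s : St _ β _ _ (2961 * 32) _ _ _ _ _ _ _ _ := s.rnz (i := 94752) g r13_82_1 ⟨by norm_num, c⟩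
  have s : St _ β _ _ (2961 * 32) _ _ _ _ _ _ _ _ := s.rnz (i := 94752) g r13_82_2 ⟨by norm_num, c⟩
  have s : St _ β _ _ (2961 * 32) _ _ _ _ _ _ _ _ := s.rnz (i := 94752) g r13_82_3 ⟨by norm_num, c⟩
  have s : St _ β _ _ (2961 * 32) _ _ _ _ _ _ _ _ := s.rnz (i := 94752) g r13_82_4 ⟨by norm_num, c⟩
  have s : St _ β _ _ (2961 * 32) _ _ _ _ _ _ _ _ := s.rnz (i := 94752) g r13_82_5 ⟨by norm_num, c⟩
  have s : St _ β _ _ (2961 * 32) _ _ _ _ _ _ _ _ := s.rnz (i := 94752) g r13_83_0 ⟨by norm_num, c⟩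
  have s : St _ β _ _ (2961 * 32) _ _ _ _ _ _ _ _ := s.rnz (i := 94752) g r13_83_1 ⟨by norm_num, c⟩
  have s : St _ β _ _ (2961 * 32) _ _ _ _ _ _ _ _ := s.rnz (i := 94752) g r13_83_2 ⟨by norm_num, c⟩
  have s : St _ β _ _ (3016 * 32) _ _ _ _ _ _ _ _ := s.ru g okX13_139 p13_83_3
  have s : St _ β _ _ (3075 * 32) _ _ _ _ _ _ _ _ := s.ru g okX13_139 p13_84_0
  have s : St _ β _ _ (3127 * 32) _ _ _ _ _ _ _ _ := s.ru g okX13_139 p13_85_0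
  have s : St _ β _ _ (3168 * 32) _ _ _ _ _ _ _ _ := s.ru g okX13_139 p13_86_0
  have s : St _ β _ _ (3199 * 32) _ _ _ _ _ _ _ _ := s.ru g okX13_139 p13_87_0
  have s : St _ β _ _ (3225 * 32) _ _ _ _ _ _ _ _ := s.ru g okX13_139 p13_88_0
  have s : St _ β _ _ (3254 * 32) _ _ _ _ _ _ _ _ := s.ru g okX13_139 p13_89_0
  have s : St _ β _ _ (3254 * 32) _ _ _ _ _ _ _ _ := s.rnz (i := 104128) g r13_89_12 ⟨by norm_num, c⟩
  have s : St _ β _ _ (3254 * 32) _ _ _ _ _ _ _ _ := s.rnz (i := 104128) g r13_89_13 ⟨by norm_num, c⟩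
  have s : St _ β _ _ (3254 * 32) _ _ _ _ _ _ _ _ := s.rnz (i := 104128) g r13_90_0 ⟨by norm_num, c⟩
  have s : St _ β _ _ (3254 * 32) _ _ _ _ _ _ _ _ := s.rnz (i := 104128) g r13_90_1 ⟨by norm_num, c⟩
  have s : St _ β _ _ (3254 * 32) _ _ _ _ _ _ _ _ := s.rnz (i := 104128) g r13_90_2 ⟨by norm_num, c⟩
  have s : St _ β _ _ (3254 * 32) _ _ _ _ _ _ _ _ := s.rnz (i := 104128) g r13_90_3 ⟨by norm_num, c⟩
  have s : St _ β _ _ (3254 * 32) _ _ _ _ _ _ _ _ := s.rnz (i := 104128) g r13_90_4 ⟨by norm_num, c⟩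
  have s : St _ β _ _ (3254 * 32) _ _ _ _ _ _ _ _ := s.rnz (i := 104128) g r13_90_5 ⟨by norm_num, c⟩
  have s : St _ β _ _ (3254 * 32) _ _ _ _ _ _ _ _ := s.rnz (i := 104128) g r13_91_0 ⟨by norm_num, c⟩
  have s : St _ β _ _ (3254 * 32) _ _ _ _ _ _ _ _ := s.rnz (i := 104128) g r13_91_1 ⟨by norm_num, c⟩
  have s : St _ β _ _ (3330 * 32) _ _ _ _ _ _ _ _ := s.ru g okX13_155 p13_91_2
  have s : St _ β _ _ (3401 * 32) _ _ _ _ _ _ _ _ := s.ru g okX13_155 p13_92_0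
  have s : St _ β _ _ (3458 * 32) _ _ _ _ _ _ _ _ := s.ru g okX13_155 p13_93_0
  have s : St _ β _ _ (3494 * 32) _ _ _ _ _ _ _ _ := s.ru g okX13_155 p13_94_0
  have s : St _ β _ _ (3520 * 32) _ _ _ _ _ _ _ _ := s.ru g okX13_155 p13_95_0
  have s : St _ β _ _ (3521 * 32) _ _ _ _ _ _ _ _ := s.ru g okX13_155 p13_96_0
  have s : St _ β _ _ (3521 * 32) _ _ _ _ _ _ _ _ := s.rnz (i := 112672) g r13_96_1 ⟨by norm_num, c⟩
  have s : St _ β _ _ (3521 * 32) _ _ _ _ _ _ _ _ := s.rnz (i := 112672) g r13_96_2 ⟨by norm_num, c⟩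
  have s : St _ β _ _ (3521 * 32) _ _ _ _ _ _ _ _ := s.rnz (i := 112672) g r13_96_3 ⟨by norm_num, c⟩
  have s : St _ β _ _ (3521 * 32) _ _ _ _ _ _ _ _ := s.rnz (i := 112672) g r13_96_4 ⟨by norm_num, c⟩
  have s : St _ β _ _ (3521 * 32) _ _ _ _ _ _ _ _ := s.rnz (i := 112672) g r13_96_5 ⟨by norm_num, c⟩
  have s : St _ β _ _ (3521 * 32) _ _ _ _ _ _ _ _ := s.rnz (i := 112672) g r13_96_6 ⟨by norm_num, c⟩
  have s : St _ β _ _ (3521 * 32) _ _ _ _ _ _ _ _ := s.rnz (i := 112672) g r13_96_7 ⟨by norm_num, c⟩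
  have s : St _ β _ _ (3521 * 32) _ _ _ _ _ _ _ _ := s.rnz (i := 112672) g r13_97_0 ⟨by norm_num, c⟩
  have s : St _ β _ _ (3521 * 32) _ _ _ _ _ _ _ _ := s.rnz (i := 112672) g r13_97_1 ⟨by norm_num, c⟩
  have s : St _ β _ _ (3521 * 32) _ _ _ _ _ _ _ _ := s.rnz (i := 112672) g r13_97_2 ⟨by norm_num, c⟩
  have s : St _ β _ _ (3567 * 32) _ _ _ _ _ _ _ _ := s.ru g okX13_169 p13_97_3
  have s : St _ β _ _ (3617 * 32) _ _ _ _ _ _ _ _ := s.ru g okX13_169 p13_98_0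
  have s : St _ β _ _ (3666 * 32) _ _ _ _ _ _ _ _ := s.ru g okX13_169 p13_99_0
  have s : St _ β _ _ (3703 * 32) _ _ _ _ _ _ _ _ := s.ru g okX13_169 p13_100_0
  have s : St _ β _ _ (3734 * 32) _ _ _ _ _ _ _ _ := s.ru g okX13_169 p13_101_0
  have s : St _ β _ _ (3738 * 32) _ _ _ _ _ _ _ _ := s.ru g okX13_169 p13_102_0
  have s : St _ β _ _ (3738 * 32) _ _ _ _ _ _ _ _ := s.rnz (i := 119616) g r13_102_2 ⟨by norm_num, c⟩
  have s : St _ β _ _ (3738 * 32) _ _ _ _ _ _ _ _ := s.rnz (i := 119616) g r13_102_3 ⟨by norm_num, c⟩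
  have s : St _ β _ _ (3738 * 32) _ _ _ _ _ _ _ _ := s.rnz (i := 119616) g r13_102_4 ⟨by norm_num, c⟩
  have s : St _ β _ _ (3738 * 32) _ _ _ _ _ _ _ _ := s.rnz (i := 119616) g r13_102_5 ⟨by norm_num, c⟩
  have s : St _ β _ _ (3738 * 32) _ _ _ _ _ _ _ _ := s.rnz (i := 119616) g r13_102_6 ⟨by norm_num, c⟩
  have s : St _ β _ _ (3738 * 32) _ _ _ _ _ _ _ _ := s.rnz (i := 119616) g r13_102_7 ⟨by norm_num, c⟩
  have s : St _ β _ _ (3806 * 32) _ _ _ _ _ _ _ _ := s.ru g okX13_180 p13_103_0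
  have s : St _ β _ _ (3848 * 32) _ _ _ _ _ _ _ _ := s.ru g okX13_180 p13_104_0
  have s : St _ β _ _ (3885 * 32) _ _ _ _ _ _ _ _ := s.ru g okX13_180 p13_105_0
  have s : St _ β _ _ (3913 * 32) _ _ _ _ _ _ _ _ := s.ru g okX13_180 p13_106_0
  have s : St _ β _ _ (3913 * 32) _ _ _ _ _ _ _ _ := s.rnz (i := 125216) g r13_106_11 ⟨by norm_num, c⟩
  have s : St _ β _ _ (3913 * 32) _ _ _ _ _ _ _ _ := s.rnz (i := 125216) g r13_106_12 ⟨by norm_num, c⟩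
  have s : St _ β _ _ (3913 * 32) _ _ _ _ _ _ _ _ := s.rnz (i := 125216) g r13_107_0 ⟨by norm_num, c⟩
  have s : St _ β _ _ (3913 * 32) _ _ _ _ _ _ _ _ := s.rnz (i := 125216) g r13_107_1 ⟨by norm_num, c⟩
  have s : St _ β _ _ (3913 * 32) _ _ _ _ _ _ _ _ := s.rnz (i := 125216) g r13_107_2 ⟨by norm_num, c⟩
  have s : St _ β _ _ (3955 * 32) _ _ _ _ _ _ _ _ := s.ru g okX13_188 p13_107_3
  have s : St _ β _ _ (4003 * 32) _ _ _ _ _ _ _ _ := s.ru g okX13_188 p13_108_0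
  have s : St _ β _ _ (4020 * 32) _ _ _ _ _ _ _ _ := s.ru g okX13_188 p13_109_0
  have s : St _ β _ _ (4020 * 32) _ _ _ _ _ _ _ _ := s.rnz (i := 128640) g r13_109_8 ⟨by norm_num, c⟩
  have s : St _ β _ _ (4020 * 32) _ _ _ _ _ _ _ _ := s.rnz (i := 128640) g r13_109_9 ⟨by norm_num, c⟩
  have s : St _ β _ _ (4020 * 32) _ _ _ _ _ _ _ _ := s.rnz (i := 128640) g r13_109_10 ⟨by norm_num, c⟩
  have s : St _ β _ _ (4031 * 32) _ _ _ _ _ _ _ _ := s.ru g okX13_191 p13_109_11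
  have s : St _ β _ _ (4083 * 32) _ _ _ _ _ _ _ _ := s.ru g okX13_191 p13_110_0
  have s : St _ β _ _ (4092 * 32) _ _ _ _ _ _ _ _ := s.ru g okX13_191 p13_111_0
  have s : St _ β _ _ (4092 * 32) _ _ _ _ _ _ _ _ := s.rnz (i := 130944) g r13_111_4 ⟨by norm_num, c⟩
  have s : St _ β _ _ (4092 * 32) _ _ _ _ _ _ _ _ := s.rnz (i := 130944) g r13_111_5 ⟨by norm_num, c⟩
  have s : St _ β _ H13_1 (651 * 32) _ _ _ _ _ _ _ _ := s.cpy (i := 130944) cp13_1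
  have s : St _ β _ _ (702 * 32) _ _ _ _ _ _ _ _ := s.ru g okX13_196 p13_112_0
  have s : St _ β _ _ (714 * 32) _ _ _ _ _ _ _ _ := s.ru g okX13_196 p13_113_0
  have s : St _ β _ _ (714 * 32) _ _ _ _ _ _ _ _ := s.rnz (i := 22848) g r13_113_4 ⟨by norm_num, c⟩
  have s : St _ β _ _ (714 * 32) _ _ _ _ _ _ _ _ := s.rnz (i := 22848) g r13_113_5 ⟨by norm_num, c⟩
  have s : St _ β _ _ (724 * 32) _ _ _ _ _ _ _ _ := s.ru g okX13_200 p13_113_6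
  have s : St _ β _ _ (724 * 32) _ _ _ _ _ _ _ _ := s.rnz (i := 23168) g r13_113_9 ⟨by norm_num, c⟩
  have s : St _ β _ _ (744 * 32) _ _ _ _ _ _ _ _ := s.ru g okX13_200 p13_113_10
  have s : St _ β _ _ (781 * 32) _ _ _ _ _ _ _ _ := s.ru g okX13_200 p13_114_0
  have s : St _ β _ _ (786 * 32) _ _ _ _ _ _ _ _ := s.ru g okX13_200 p13_115_0
  have s : St _ β _ _ (786 * 32) _ _ _ _ _ _ _ _ := s.rnz (i := 25152) g r13_115_2 ⟨by norm_num, c⟩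
  have s : St _ β _ _ (786 * 32) _ _ _ _ _ _ _ _ := s.rnz (i := 25152) g r13_115_3 ⟨by norm_num, c⟩
  have s : St _ β _ _ (823 * 32) _ _ _ _ _ _ _ _ := s.ru g okX13_205 p13_115_4
  have s : St _ β _ _ (833 * 32) _ _ _ _ _ _ _ _ := s.ru g okX13_205 p13_116_0
  have s : St _ β _ _ (833 * 32) _ _ _ _ _ _ _ _ := s.rnz (i := 26656) g r13_116_4 ⟨by norm_num, c⟩
  have s : St _ β _ _ (833 * 32) _ _ _ _ _ _ _ _ := s.rnz (i := 26656) g r13_116_5 ⟨by norm_num, c⟩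
  have s : St _ β _ _ (865 * 32) _ _ _ _ _ _ _ _ := s.ru g okX13_207 p13_116_6
  have s : St _ β _ _ (866 * 32) _ _ _ _ _ _ _ _ := s.ru g okX13_207 p13_117_0
  have s : St _ β _ _ (866 * 32) _ _ _ _ _ _ _ _ := s.rnz (i := 27712) g r13_117_1 ⟨by norm_num, c⟩
  have s : St _ β _ _ (888 * 32) _ _ _ _ _ _ _ _ := s.ru g okX13_210 p13_117_2
  have s : St _ β _ _ (888 * 32) _ _ _ _ _ _ _ _ := s.rnz (i := 28416) g r13_117_7 ⟨by norm_num, c⟩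
  have s : St _ β _ _ (911 * 32) _ _ _ _ _ _ _ _ := s.ru g okX13_212 p13_117_8
  have s : St _ β _ _ (911 * 32) _ _ _ _ _ _ _ _ := s.rnz (i := 29152) g r13_118_0 ⟨by norm_num, c⟩
  have s : St _ β _ _ (993 * 32) _ _ _ _ _ _ _ _ := s.ru g okX13_214 p13_118_1
  have s : St _ β _ _ (1055 * 32) _ _ _ _ _ _ _ _ := s.ru g okX13_214 p13_119_0
  have s : St _ β _ _ (1110 * 32) _ _ _ _ _ _ _ _ := s.ru g okX13_214 p13_120_0
  have s : St _ β _ _ (1154 * 32) _ _ _ _ _ _ _ _ := s.ru g okX13_214 p13_121_0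
  have s : St _ β _ _ (1192 * 32) _ _ _ _ _ _ _ _ := s.ru g okX13_214 p13_122_0
  have s : St _ β _ _ (1213 * 32) _ _ _ _ _ _ _ _ := s.ru g okX13_214 p13_123_0
  have s : St _ β _ _ (1213 * 32) _ _ _ _ _ _ _ _ := s.rnz (i := 38816) g r13_123_7 ⟨by norm_num, c⟩
  have s : St _ β _ _ (1213 * 32) _ _ _ _ _ _ _ _ := s.rnz (i := 38816) g r13_123_8 ⟨by norm_num, c⟩
  have s : St _ β _ _ (1213 * 32) _ _ _ _ _ _ _ _ := s.rnz (i := 38816) g r13_123_9 ⟨by norm_num, c⟩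
  have s : St _ β _ _ (1213 * 32) _ _ _ _ _ _ _ _ := s.rnz (i := 38816) g r13_124_0 ⟨by norm_num, c⟩
  have s : St _ β _ _ (1213 * 32) _ _ _ _ _ _ _ _ := s.rnz (i := 38816) g r13_124_1 ⟨by norm_num, c⟩
  have s : St _ β _ _ (1213 * 32) _ _ _ _ _ _ _ _ := s.rnz (i := 38816) g r13_124_2 ⟨by norm_num, c⟩
  have s : St _ β _ _ (1213 * 32) _ _ _ _ _ _ _ _ := s.rnz (i := 38816) g r13_124_3 ⟨by norm_num, c⟩
  have s : St _ β _ _ (1213 * 32) _ _ _ _ _ _ _ _ := s.rnz (i := 38816) g r13_124_4 ⟨by norm_num, c⟩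
  have s : St _ β _ _ (1213 * 32) _ _ _ _ _ _ _ _ := s.rnz (i := 38816) g r13_124_5 ⟨by norm_num, c⟩
  have s : St _ β _ _ (1213 * 32) _ _ _ _ _ _ _ _ := s.rnz (i := 38816) g r13_124_6 ⟨by norm_num, c⟩
  have s : St _ β _ _ (1213 * 32) _ _ _ _ _ _ _ _ := s.rnz (i := 38816) g r13_125_0 ⟨by norm_num, c⟩
  have s : St _ β _ _ (1281 * 32) _ _ _ _ _ _ _ _ := s.ru g okX13_231 p13_125_1
  have s : St _ β _ _ (1339 * 32) _ _ _ _ _ _ _ _ := s.ru g okX13_231 p13_126_0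
  have s : St _ β _ _ (1378 * 32) _ _ _ _ _ _ _ _ := s.ru g okX13_231 p13_127_0
  have s : St _ β _ _ (1378 * 32) _ _ _ _ _ _ _ _ := s.rnz (i := 44096) g r13_127_13 ⟨by norm_num, c⟩
  have s : St _ β _ _ (1378 * 32) _ _ _ _ _ _ _ _ := s.rnz (i := 44096) g r13_128_0 ⟨by norm_num, c⟩
  have s : St _ β _ _ (1378 * 32) _ _ _ _ _ _ _ _ := s.rnz (i := 44096) g r13_128_1 ⟨by norm_num, c⟩
  have s : St _ β _ _ (1378 * 32) _ _ _ _ _ _ _ _ := s.rnz (i := 44096) g r13_128_2 ⟨by norm_num, c⟩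
  have s : St _ β _ _ (1378 * 32) _ _ _ _ _ _ _ _ := s.rnz (i := 44096) g r13_128_3 ⟨by norm_num, c⟩
  have s : St _ β _ _ (1378 * 32) _ _ _ _ _ _ _ _ := s.rnz (i := 44096) g r13_128_4 ⟨by norm_num, c⟩
  have s : St _ β _ _ (1413 * 32) _ _ _ _ _ _ _ _ := s.ru g okX13_241 p13_128_5
  have s : St _ β _ _ (1490 * 32) _ _ _ _ _ _ _ _ := s.ru g okX13_241 p13_129_0
  have s : St _ β _ _ (1549 * 32) _ _ _ _ _ _ _ _ := s.ru g okX13_241 p13_130_0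
  have s : St _ β _ _ (1596 * 32) _ _ _ _ _ _ _ _ := s.ru g okX13_241 p13_131_0
  have s : St _ β _ _ (1596 * 32) _ _ _ _ _ _ _ _ := s.rnz (i := 51072) g r13_132_0 ⟨by norm_num, c⟩
  have s : St _ β _ _ (1596 * 32) _ _ _ _ _ _ _ _ := s.rnz (i := 51072) g r13_132_1 ⟨by norm_num, c⟩
  have s : St _ β _ _ (1596 * 32) _ _ _ _ _ _ _ _ := s.rnz (i := 51072) g r13_132_2 ⟨by norm_num, c⟩
  have s : St _ β _ _ (1596 * 32) _ _ _ _ _ _ _ _ := s.rnz (i := 51072) g r13_132_3 ⟨by norm_num, c⟩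
  have s : St _ β _ _ (1596 * 32) _ _ _ _ _ _ _ _ := s.rnz (i := 51072) g r13_132_4 ⟨by norm_num, c⟩
  have s : St _ β _ _ (1614 * 32) _ _ _ _ _ _ _ _ := s.ru g okX13_250 p13_132_5
  have s : St _ β _ _ (1689 * 32) _ _ _ _ _ _ _ _ := s.ru g okX13_250 p13_133_0
  have s : St _ β _ _ (1753 * 32) _ _ _ _ _ _ _ _ := s.ru g okX13_250 p13_134_0
  have s : St _ β _ _ (1801 * 32) _ _ _ _ _ _ _ _ := s.ru g okX13_250 p13_135_0
  have s : St _ β _ _ (1823 * 32) _ _ _ _ _ _ _ _ := s.ru g okX13_250 p13_136_0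
  have s : St _ β _ _ (1823 * 32) _ _ _ _ _ _ _ _ := s.rnz (i := 58336) g r13_136_5 ⟨by norm_num, c⟩
  have s : St _ β _ _ (1823 * 32) _ _ _ _ _ _ _ _ := s.rnz (i := 58336) g r13_136_6 ⟨by norm_num, c⟩
  have s : St _ β _ _ (1823 * 32) _ _ _ _ _ _ _ _ := s.rnz (i := 58336) g r13_136_7 ⟨by norm_num, c⟩
  have s : St _ β _ _ (1823 * 32) _ _ _ _ _ _ _ _ := s.rnz (i := 58336) g r13_136_8 ⟨by norm_num, c⟩
  have s : St _ β _ _ (1823 * 32) _ _ _ _ _ _ _ _ := s.rnz (i := 58336) g r13_136_9 ⟨by norm_num, c⟩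
  have s : St _ β _ _ (1823 * 32) _ _ _ _ _ _ _ _ := s.rnz (i := 58336) g r13_137_0 ⟨by norm_num, c⟩
  have s : St _ β _ _ (1823 * 32) _ _ _ _ _ _ _ _ := s.rnz (i := 58336) g r13_137_1 ⟨by norm_num, c⟩
  have s : St _ β _ _ (1823 * 32) _ _ _ _ _ _ _ _ := s.rnz (i := 58336) g r13_137_2 ⟨by norm_num, c⟩
  have s : St _ β _ _ (1877 * 32) _ _ _ _ _ _ _ _ := s.ru g okX13_263 p13_137_3
  have s : St _ β _ _ (1943 * 32) _ _ _ _ _ _ _ _ := s.ru g okX13_263 p13_138_0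
  have s : St _ β _ _ (1993 * 32) _ _ _ _ _ _ _ _ := s.ru g okX13_263 p13_139_0
  have s : St _ β _ _ (1993 * 32) _ _ _ _ _ _ _ _ := s.rnz (i := 63776) g r13_139_10 ⟨by norm_num, c⟩
  have s : St _ β _ _ (1993 * 32) _ _ _ _ _ _ _ _ := s.rnz (i := 63776) g r13_139_11 ⟨by norm_num, c⟩
  have s : St _ β _ _ (1993 * 32) _ _ _ _ _ _ _ _ := s.rnz (i := 63776) g r13_140_0 ⟨by norm_num, c⟩
  have s : St _ β _ _ (1993 * 32) _ _ _ _ _ _ _ _ := s.rnz (i := 63776) g r13_140_1 ⟨by norm_num, c⟩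
  have s : St _ β _ _ (1993 * 32) _ _ _ _ _ _ _ _ := s.rnz (i := 63776) g r13_140_2 ⟨by norm_num, c⟩
  have s : St _ β _ _ (1993 * 32) _ _ _ _ _ _ _ _ := s.rnz (i := 63776) g r13_140_3 ⟨by norm_num, c⟩
  have s : St _ β _ _ (1993 * 32) _ _ _ _ _ _ _ _ := s.rnz (i := 63776) g r13_140_4 ⟨by norm_num, c⟩
  have s : St _ β _ _ (1993 * 32) _ _ _ _ _ _ _ _ := s.rnz (i := 63776) g r13_140_5 ⟨by norm_num, c⟩
  have s : St _ β _ _ (2000 * 32) _ _ _ _ _ _ _ _ := s.ru g okX13_276 p13_140_6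
  have s : St _ β _ _ (2000 * 32) _ _ _ _ _ _ _ _ := s.rnz (i := 64000) g r13_140_8 ⟨by norm_num, c⟩
  have s : St _ β _ _ (2014 * 32) _ _ _ _ _ _ _ _ := s.ru g okX13_276 p13_140_9
  have s : St _ β _ _ (2085 * 32) _ _ _ _ _ _ _ _ := s.ru g okX13_276 p13_141_0
  have s : St _ β _ _ (2085 * 32) _ _ _ _ _ _ _ _ := s.rnz (i := 66720) g r13_141_13 ⟨by norm_num, c⟩
  have s : St _ β _ _ (2085 * 32) _ _ _ _ _ _ _ _ := s.rnz (i := 66720) g r13_142_0 ⟨by norm_num, c⟩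
  have s : St _ β _ _ (2085 * 32) _ _ _ _ _ _ _ _ := s.rnz (i := 66720) g r13_142_1 ⟨by norm_num, c⟩
  have s : St _ β _ _ (2142 * 32) _ _ _ _ _ _ _ _ := s.ru g okX13_284 p13_142_2
  have s : St _ β _ _ (2161 * 32) _ _ _ _ _ _ _ _ := s.ru g okX13_284 p13_143_0
  have s : St _ β _ _ (2161 * 32) _ _ _ _ _ _ _ _ := s.rnz (i := 69152) g r13_143_4 ⟨by norm_num, c⟩
  have s : St _ β _ _ (2161 * 32) _ _ _ _ _ _ _ _ := s.rnz (i := 69152) g r13_143_5 ⟨by norm_num, c⟩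
  have s : St _ β _ _ (2161 * 32) _ _ _ _ _ _ _ _ := s.rnz (i := 69152) g r13_143_6 ⟨by norm_num, c⟩
  have s : St _ β _ _ (2161 * 32) _ _ _ _ _ _ _ _ := s.rnz (i := 69152) g r13_143_7 ⟨by norm_num, c⟩
  have s : St _ β _ _ (2161 * 32) _ _ _ _ _ _ _ _ := s.rnz (i := 69152) g r13_143_8 ⟨by norm_num, c⟩
  have s : St _ β _ _ (2161 * 32) _ _ _ _ _ _ _ _ := s.rnz (i := 69152) g r13_144_0 ⟨by norm_num, c⟩
  have s : St _ β _ _ (2209 * 32) _ _ _ _ _ _ _ _ := s.ru g okX13_296 p13_144_1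
  have s : St _ β _ _ (2209 * 32) _ _ _ _ _ _ _ _ := s.rnz (i := 70688) g r13_144_10 ⟨by norm_num, c⟩
  have s : St _ β _ _ (2209 * 32) _ _ _ _ _ _ _ _ := s.rnz (i := 70688) g r13_144_11 ⟨by norm_num, c⟩
  have s : St _ β _ _ (2209 * 32) _ _ _ _ _ _ _ _ := s.rnz (i := 70688) g r13_144_12 ⟨by norm_num, c⟩
  have s : St _ β _ _ (2209 * 32) _ _ _ _ _ _ _ _ := s.rnz (i := 70688) g r13_145_0 ⟨by norm_num, c⟩
  have s : St _ β _ _ (2210 * 32) _ _ _ _ _ _ _ _ := s.ru g okX13_304 p13_145_1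
  have s : St _ β _ _ (2210 * 32) _ _ _ _ _ _ _ _ := s.rnz (i := 70720) g r13_145_2 ⟨by norm_num, c⟩
  have s : St _ β _ _ (2233 * 32) _ _ _ _ _ _ _ _ := s.ru g okX13_304 p13_145_3
  have s : St _ β _ _ (2233 * 32) _ _ _ _ _ _ _ _ := s.rnz (i := 71456) g r13_145_7 ⟨by norm_num, c⟩
  have s : St _ β _ _ (2233 * 32) _ _ _ _ _ _ _ _ := s.rnz (i := 71456) g r13_145_8 ⟨by norm_num, c⟩
  have s : St _ β _ _ (2237 * 32) _ _ _ _ _ _ _ _ := s.ru g okX13_306 p13_145_9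
  have s : St _ β _ _ (2237 * 32) _ _ _ _ _ _ _ _ := s.rnz (i := 71584) g r13_145_10 ⟨by norm_num, c⟩
  have s : St _ β _ _ (2248 * 32) _ _ _ _ _ _ _ _ := s.ru g okX13_309 p13_145_11
  have s : St _ β _ _ (2259 * 32) _ _ _ _ _ _ _ _ := s.ru g okX13_309 p13_146_0
  have s : St _ β _ _ (2259 * 32) _ _ _ _ _ _ _ _ := s.rnz (i := 72288) g r13_146_3 ⟨by norm_num, c⟩
  have s : St _ β _ _ (2259 * 32) _ _ _ _ _ _ _ _ := s.rnz (i := 72288) g r13_146_4 ⟨by norm_num, c⟩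
  have s : St _ β _ _ (2267 * 32) _ _ _ _ _ _ _ _ := s.ru g okX13_311 p13_146_5
  have s : St _ β _ _ (2267 * 32) _ _ _ _ _ _ _ _ := s.rnz (i := 72544) g r13_146_7 ⟨by norm_num, c⟩
  have s : St _ β _ _ (2270 * 32) _ _ _ _ _ _ _ _ := s.ru g okX13_314 p13_146_8
  have s : St _ β _ _ (2270 * 32) _ _ _ _ _ _ _ _ := s.rnz (i := 72640) g r13_146_9 ⟨by norm_num, c⟩
  have s : St _ β _ _ (2278 * 32) _ _ _ _ _ _ _ _ := s.ru g okX13_314 p13_146_10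
  have s : St _ β _ _ (2278 * 32) _ _ _ _ _ _ _ _ := s.rnz (i := 72896) g r13_146_12 ⟨by norm_num, c⟩
  have s : St _ β _ _ (2278 * 32) _ _ _ _ _ _ _ _ := s.rnz (i := 72896) g r13_146_13 ⟨by norm_num, c⟩
  have s : St _ β _ _ (2278 * 32) _ _ _ _ _ _ _ _ := s.rnz (i := 72896) g r13_147_0 ⟨by norm_num, c⟩
  have s : St _ β _ _ (2282 * 32) _ _ _ _ _ _ _ _ := s.ru g okX13_316 p13_147_1
  have s : St _ β _ _ (2282 * 32) _ _ _ _ _ _ _ _ := s.rnz (i := 73024) g r13_147_2 ⟨by norm_num, c⟩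
  have s : St _ β _ _ (2289 * 32) _ _ _ _ _ _ _ _ := s.ru g okX13_318 p13_147_3
  have s : St _ β _ _ (2289 * 32) _ _ _ _ _ _ _ _ := s.rnz (i := 73248) g r13_147_4 ⟨by norm_num, c⟩
  have s : St _ β _ _ (2289 * 32) _ _ _ _ _ _ _ _ := s.rnz (i := 73248) g r13_147_5 ⟨by norm_num, c⟩
  have s : St _ β _ _ (2289 * 32) _ _ _ _ _ _ _ _ := s.rnz (i := 73248) g r13_147_6 ⟨by norm_num, c⟩
  have s : St _ β _ _ (2291 * 32) _ _ _ _ _ _ _ _ := s.ru g okX13_321 p13_147_7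
  have s : St _ β _ _ (2291 * 32) _ _ _ _ _ _ _ _ := s.rnz (i := 73312) g r13_147_8 ⟨by norm_num, c⟩
  have s : St _ β _ _ (2295 * 32) _ _ _ _ _ _ _ _ := s.ru g okX13_321 p13_147_9
  have s : St _ β _ _ (2295 * 32) _ _ _ _ _ _ _ _ := s.rnz (i := 73440) g r13_147_10 ⟨by norm_num, c⟩
  have s : St _ β _ _ (2295 * 32) _ _ _ _ _ _ _ _ := s.rnz (i := 73440) g r13_147_11 ⟨by norm_num, c⟩
  have s : St _ β _ _ (2298 * 32) _ _ _ _ _ _ _ _ := s.ru g okX13_326 p13_148_0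
  have s : St _ β _ _ (2298 * 32) _ _ _ _ _ _ _ _ := s.rnz (i := 73536) g r13_148_1 ⟨by norm_num, c⟩
  have s : St _ β _ _ (2301 * 32) _ _ _ _ _ _ _ _ := s.ru g okX13_328 p13_148_2
  have s : St _ β _ _ (2301 * 32) _ _ _ _ _ _ _ _ := s.rnz (i := 73632) g r13_148_3 ⟨by norm_num, c⟩
  have s : St _ β _ _ (2301 * 32) _ _ _ _ _ _ _ _ := s.rnz (i := 73632) g r13_148_4 ⟨by norm_num, c⟩
  have s : St _ β _ _ (2302 * 32) _ _ _ _ _ _ _ _ := s.ru g okX13_331 p13_148_5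
  have s : St _ β _ _ (2302 * 32) _ _ _ _ _ _ _ _ := s.rnz (i := 73664) g r13_148_6 ⟨by norm_num, c⟩
  have s : St _ β _ _ (2304 * 32) _ _ _ _ _ _ _ _ := s.ru g okX13_331 p13_148_7
  have s : St _ β _ _ (2304 * 32) _ _ _ _ _ _ _ _ := s.rnz (i := 73728) g r13_148_8 ⟨by norm_num, c⟩
  have s : St _ β _ _ (2305 * 32) _ _ _ _ _ _ _ _ := s.ru g okX13_334 p13_148_9
  have s : St _ β _ _ (2305 * 32) _ _ _ _ _ _ _ _ := s.rnz (i := 73760) g r13_148_10 ⟨by norm_num, c⟩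
  have s : St _ β _ _ (2307 * 32) _ _ _ _ _ _ _ _ := s.ru g okX13_334 p13_148_11
  have s : St _ β _ _ (2307 * 32) _ _ _ _ _ _ _ _ := s.rnz (i := 73824) g r13_148_12 ⟨by norm_num, c⟩
  exact s.out g (by decide +kernel)

theorem many : Many2 ⟨FA, FB, FT, 61890, 10035, 38461, geo_ok⟩ 10035 9861 :=
  ((seg1.app seg2 (by norm_num)).app seg13 (by norm_num)).many (by norm_num)

end

end Pool.Agent.MP_1037db_co.Q.B
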